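import Mathlib
import Pool.Agent.Helper890.ChiDef
import Pool.Agent.Helper890.ChiFinal

/-!
# Q2 of MP_4856b2_nt: sequences satisfying the chi inequality

Every integer sequence satisfying the chi inequality of Levine and O'Sullivan has reciprocal sum
at most the reciprocal sum of the greedy sequence `chi`, for the infinite sums and for the first
`n` terms, for every `n`.
-/

namespace Pool.Agent.Results.MP_4856b2_nt.ChiInequalityBound

open Pool.Agent.Helper890 Finset

/-- `c` is the chi sequence (only the values at the indices `i ≥ 1` matter): `c 1 = 1` and, for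
`i ≥ 2`, `c i` is the maximum of `(j+1)(i - c j)` over `1 ≤ j < i`. -/
def IsChi (c : ℕ → ℤ) : Prop :=
  c 1 = 1 ∧ ∀ i : ℕ, 2 ≤ i →
    IsGreatest {x : ℤ | ∃ j : ℕ, 1 ≤ j ∧ j < i ∧ x = ((j : ℤ) + 1) * ((i : ℤ) - c j)} (c i)

/-- the sequence `a` (indexed by `i ≥ 1`) satisfies the chi inequality -/
def ChiInequality (a : ℕ → ℤ) : Prop :=
  ∀ i j : ℕ, 1 ≤ i → 1 ≤ j → ((j : ℤ) + 1) * a j + a i ≥ ((j : ℤ) + 1) * i

theorem isChi_chi : IsChi chi := by
  refine ⟨chi_one, fun i hi => ⟨?_, ?_⟩⟩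
  · obtain ⟨p, h1, h2, h3⟩ := chi_exists hi
    exact ⟨p, h1, h2, h3⟩
  · rintro x ⟨j, h1, h2, rfl⟩
    exact chi_ge' hi h1 h2

theorem eq_chi {c : ℕ → ℤ} (hc : IsChi c) : ∀ i : ℕ, 1 ≤ i → c i = chi i := by
  intro i
  induction i using Nat.strong_induction_on with
  | _ i ih =>
    intro hi
    rcases Nat.lt_or_ge i 2 with h | h
    · have : i = 1 := by omega
      subst this
      rw [hc.1, chi_one]
    · have h1 := hc.2 i h
      have h2 := isChi_chi.2 i h
      have hset : {x : ℤ | ∃ j : ℕ, 1 ≤ j ∧ j < i ∧ x = ((j : ℤ) + 1) * ((i : ℤ) - c j)}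
          = {x : ℤ | ∃ j : ℕ, 1 ≤ j ∧ j < i ∧ x = ((j : ℤ) + 1) * ((i : ℤ) - chi j)} := by
        ext x
        simp only [Set.mem_setOf_eq]
        refine exists_congr fun j => ?_
        constructor
        · rintro ⟨a, b, e⟩
          exact ⟨a, b, by rw [e, ih j b a]⟩
        · rintro ⟨a, b, e⟩
          exact ⟨a, b, by rw [e, ih j b a]⟩
      rw [hset] at h1
      exact h1.unique h2

/-- **The conjecture of Levine and O'Sullivan on the chi inequality.** The chi sequence `c` exists,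
and for every integer sequence `a` satisfying the chi inequality the reciprocals are summable,
`∑ 1 / a k ≤ ∑ 1 / c k`, and the same inequality holds for the sums of the first `n` terms,
for every `n`. -/
theorem result :
    (∃ c : ℕ → ℤ, IsChi c) ∧
    ∀ c : ℕ → ℤ, IsChi c →
      Summable (fun k : ℕ => 1 / (c (k + 1) : ℝ)) ∧
      ∀ a : ℕ → ℤ, ChiInequality a →
        (Summable (fun k : ℕ => 1 / (a (k + 1) : ℝ)) ∧
          ∑' k : ℕ, 1 / (a (k + 1) : ℝ) ≤ ∑' k : ℕ, 1 / (c (k + 1) : ℝ)) ∧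
        ∀ n : ℕ, ∑ i ∈ Icc 1 n, 1 / (a i : ℝ) ≤ ∑ i ∈ Icc 1 n, 1 / (c i : ℝ) := by
  refine ⟨⟨chi, isChi_chi⟩, ?_⟩
  intro c hc
  have e := eq_chi hc
  have e1 : (fun k : ℕ => 1 / (c (k + 1) : ℝ)) = fun k : ℕ => 1 / (chi (k + 1) : ℝ) := by
    funext k
    rw [e (k + 1) (by omega)]
  refine ⟨?_, ?_⟩
  · rw [e1]
    exact summable_chi
  · intro a ha
    have hchi : ∀ i j : ℕ, 1 ≤ i → 1 ≤ j →
        ((j : ℤ) + 1) * i ≤ a i + ((j : ℤ) + 1) * a j := by
      intro i j hi hj
      have := ha i j hi hj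
      linarith
    refine ⟨?_, ?_⟩
    · rw [e1]
      exact main_infinite a hchi
    · intro n
      have h := finite_all (n := n) (a := a) (fun i j hi _ hj _ => hchi i j hi hj)
      have h2 : ∑ i ∈ Icc 1 n, 1 / (c i : ℝ) = ∑ i ∈ Icc 1 n, 1 / (chi i : ℝ) := by
        refine sum_congr rfl ?_
        intro i hi
        rw [e i (mem_Icc.1 hi).1]
      rw [h2]
      exact h

end Pool.Agent.Results.MP_4856b2_nt.ChiInequalityBound
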